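import Pool.Agent.Work.MP_542d22_co.Final

set_option autoImplicit false

namespace Pool.Agent.Work.MP_542d22_co.Q1.SimpleDigraphs

/-- There are `k` pairwise edge-disjoint directed walks from `x` to `y` in the digraph with the
edges `E` (so `k ≤ λ(x, y)`; each walk contains a directed path). -/
def Joined {V E : Type} (tail head : E → V) (k : ℕ) (x y : V) : Prop :=
  ∃ P : Fin k → List E,
    (∀ i, P i ≠ [] ∧ (∀ e ∈ (P i).head?, tail e = x) ∧ (∀ e ∈ (P i).getLast?, head e = y) ∧
      ∀ (j : ℕ) (a b : E), (P i)[j]? = some a → (P i)[j + 1]? = some b → head a = tail b) ∧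
    ∀ i j, i ≠ j → ∀ e ∈ P i, e ∉ P j

/-- **Mader's conjecture for simple digraphs**: every finite digraph without loops and without
parallel edges (antiparallel edges are allowed) in which every vertex has out-degree at least `r`
has two distinct vertices `x, y` with `r` pairwise edge-disjoint directed paths from `x` to `y`. -/
theorem result :
    ∀ (r : ℕ), 1 ≤ r → ∀ (V E : Type) [Finite V] [Finite E] [Nonempty V] (tail head : E → V),
      (∀ e, tail e ≠ head e) →
      (∀ e f, tail e = tail f → head e = head f → e = f) →
      (∀ v : V, r ≤ Nat.card {e : E // tail e = v}) →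
      ∃ x y : V, x ≠ y ∧ Joined tail head r x y := by
  intro r hr V E _ _ _ tail head hl hs hdeg
  exact Pool.Agent.Work.MP_542d22_co.simple_q1 tail head r hr hl hs hdeg

end Pool.Agent.Work.MP_542d22_co.Q1.SimpleDigraphs
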